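import Pool.Agent.Y192.OG.StD
import Pool.Agent.Y141.OG.Cl

/-!
The estimate for a minimal relation, general form.
-/

set_option autoImplicit false

namespace Pool.Agent.Y458.OG

open Filter Metric Set Topology Pool.Agent.W603.BP Pool.Agent.Y192.OG Pool.Agent.Y141.OG

variable {N : ℕ} {c : Curve N} {F : c.Mr}

/-- the comparison of orders -/
theorem ordd (hr : St_ring) (ho : St_ord) (hw : St_wr) (r : Rad c F)
    (Φ : Finset (Fin N → ℤ)) (w k : ℕ)
    (e : Fin (k + 1) → c.Mr) (he : ∑ i, e i = 0) (lm : Fin (k + 1) → ℂ → ℝ)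
    (nu : Fin (k + 1) → ℂ → ℤ)
    (hc : ∀ i, Ctl r (e i) (lm i) (nu i) Φ w)
    (hW : c.wrd (fun i : Fin k => e i.succ) ≠ 0)
    (hU : ∀ z ∈ c.U, ∀ i, nu i z = nu 0 z ∧ 0 ≤ nu i z) (Nv : ℂ → ℝ)
    (hN : ∀ z ∈ Ext c.r0, ∃ i, (nu i z : ℝ) ≤ Nv z) (z : ℂ) (hz : z ∈ Ext c.r0) :
    ∑ l, ((nu l z : ℤ) : ℝ) - Nv z - k * w * ∑ φ ∈ Φ, ((|c.del z φ| : ℤ) : ℝ)
      - (k * w + k ^ 2) * ((c.bad z : ℤ) : ℝ) ≤
      ((c.ord z (c.wrd (fun i : Fin k => e i.succ))).untop₀ : ℤ) := by
  obtain ⟨i, hi⟩ := hN z hz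
  by_cases hzU : z ∈ c.U
  · have hd : ∀ m' : Fin N → ℤ, c.del z m' = 0 := (ho N c).2.1 z hzU
    have hbad : c.bad z = 0 := (ho N c).2.2.1 z hzU
    obtain ⟨v, hv⟩ := Int.eq_ofNat_of_zero_le (hU z hzU 0).2
    have hnu : ∀ l, nu l z = (v : ℤ) := fun l => by rw [(hU z hzU l).1, hv]
    have h1 := (hw N c F r k (fun i => e i.succ)).2.2.1 z hzU v (by
      intro j
      have h2 := (hc j.succ).2 z hz
      simp only [hd, hbad, abs_zero, Finset.sum_const_zero, add_zero, mul_zero, sub_zero] at h2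
      rw [hnu] at h2
      exact_mod_cast h2)
    have h4 : c.ord z (c.wrd (fun i : Fin k => e i.succ)) ≠ ⊤ := (hr N c).2.2.2 _ hW z hz
    have h5 : ((k * v : ℕ) : ℤ) ≤ (c.ord z (c.wrd (fun i : Fin k => e i.succ))).untop₀ := by
      rw [← WithTop.coe_untop₀_of_ne_top h4] at h1
      exact WithTop.coe_le_coe.mp h1
    have h6 : ((k * v : ℕ) : ℝ) ≤
        ((c.ord z (c.wrd (fun i : Fin k => e i.succ))).untop₀ : ℤ) := by exact_mod_cast h5
    have h7 : ((v : ℕ) : ℝ) ≤ Nv z := by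
      rw [hnu] at hi
      exact_mod_cast hi
    refine le_trans ?_ h6
    simp only [hd, hbad, hnu, abs_zero, Int.cast_zero, Finset.sum_const_zero, mul_zero, sub_zero,
      Finset.sum_const, Finset.card_univ, Fintype.card_fin, nsmul_eq_mul]
    push_cast
    linarith
  · have hbad : c.bad z = 1 := bad_of z hz hzU
    have h1 := ordb hr ho hw r Φ w k e he lm nu hc hW z hz i
    have h2 : ((∑ l, nu l z - nu i z - k * w * (∑ φ ∈ Φ, |c.del z φ| + c.bad z) - (k : ℤ) ^ 2 : ℤ) : ℝ)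
        ≤ ((c.ord z (c.wrd (fun i : Fin k => e i.succ))).untop₀ : ℤ) := by exact_mod_cast h1
    refine le_trans ?_ h2
    rw [hbad]
    push_cast
    have h3 : ∑ φ ∈ Φ, ((|c.del z φ| : ℤ) : ℝ) = ∑ φ ∈ Φ, |((c.del z φ : ℤ) : ℝ)| :=
      Finset.sum_congr rfl fun φ _ => by push_cast; rfl
    have h4 : (k * w : ℝ) * (∑ φ ∈ Φ, |((c.del z φ : ℤ) : ℝ)| + 1) =
      (k * w : ℝ) * ∑ φ ∈ Φ, |((c.del z φ : ℤ) : ℝ)| + k * w := by ring
    rw [h4]
    linarith

theorem t_cl2 : St_ring → St_ord → St_cnt → St_jen → St_ht → St_wr → St_cl2 := by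
  intro hr ho hcn hj hh hw N c F r Φ w k e lm nu Lm Nv hk hc he hli hU hlf hci hLm hLi hNv hNf
  have hdom := dom_of hr c
  set W := c.wrd (fun i : Fin k => e i.succ) with hWdef
  have hW : W ≠ 0 := (hw N c F r k (fun i => e i.succ)).1 hli
  obtain ⟨CW, hCW⟩ := hj N c W hW
  obtain ⟨C0, hC0, hcirc⟩ := circ hdom hw r Φ w k e he _ _ hc
  set C' : ℝ := |Real.log C0| + |CW| with hC'
  have hC'0 : 0 ≤ C' := by positivity
  -- the estimate for one circle
  have key : ∀ n, Real.circleAverage Lm 0 (r.s n) - c.cnt Nv (r.s n) ≤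
      (∑ i, (Real.circleAverage (lm i) 0 (r.s n) - c.cnt (fun z => (nu i z : ℤ)) (r.s n))
        + (k * w * ∑ φ ∈ Φ, c.ht φ (r.s n)
          + (k * w + k ^ 2) * c.cnt (fun z => (c.bad z : ℤ)) (r.s n)))
      + (k * w + k ^ 2) * Real.log (1 / r.e n) + C' * (1 + Real.log (r.s n)) := by
    intro n
    set R := r.s n with hR
    have hR2 := r.hs n
    rw [← hR] at hR2
    have hr0 := c.hr0
    have hR1 : 1 ≤ R := by linarith
    have hlogR : 0 ≤ Real.log R := Real.log_nonneg hR1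
    obtain ⟨-, -, -, -, -, hil, hif⟩ := (hh N c).1 R hR2
    have he0 := (r.he n).1
    -- means
    have qabs : ∀ m', Qm R (fun z => |c.lam z m'|)
        (Real.circleAverage (fun z => |c.lam z m'|) 0 R) := fun m' => Qm.abs (hil m')
    have qlm : ∀ l, Qm R (lm l) (Real.circleAverage (lm l) 0 R) := fun l => ⟨hci l n, rfl⟩
    have qL : Qm R Lm (Real.circleAverage Lm 0 R) := ⟨hLi n, rfl⟩
    have qG := (((Qm.sum (R := R) Finset.univ (fun l _ => qlm l)).add
      (qL.smul (-1))).add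
      ((Qm.sum (R := R) Φ (fun φ _ => qabs φ)).smul ((k : ℝ) * w))).add
      (Qm.const (R := R) (Real.log C0 + (k * w + k ^ 2) * Real.log (1 / r.e n)))
    have h1 := mean_le hr hh r hW n qG (by
      intro z hz hne
      have hzE : z ∈ Ext c.r0 := by
        apply ext_of_le
        rw [hz, ← hR]
        linarith
      obtain ⟨b, hb⟩ := hLm z hzE
      have h2 := hcirc n z hz b
      have h3 := Real.log_le_log (norm_pos_iff.mpr hne) h2
      rw [Real.log_mul (by positivity) (by positivity), Real.log_mul hC0.ne' (Real.exp_ne_zero _),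
        Real.log_exp, Real.log_pow] at h3
      push_cast at h3 ⊢
      linarith)
    -- divisors
    have pabs : ∀ m', Pc c R (fun z => (|c.del z m'| : ℤ)) (c.cnt (fun z => (|c.del z m'| : ℤ)) R) :=
      fun m' => ⟨(hcn N c).2.2.2 _ _ ((ho N c).2.2.2.2.2.2.2 m') (fun z _ => by
        push_cast; rw [abs_abs]), rfl⟩
    have pnu : ∀ l, Pc c R (fun z => (nu l z : ℤ)) (c.cnt (fun z => (nu l z : ℤ)) R) :=
      fun l => ⟨hlf l, rfl⟩
    have pN : Pc c R Nv (c.cnt Nv R) := ⟨hNf, rfl⟩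
    have pbad : Pc c R (fun z => (c.bad z : ℤ)) (c.cnt (fun z => (c.bad z : ℤ)) R) :=
      ⟨(ho N c).2.2.2.2.2.2.1, rfl⟩
    have pG := (((Pc.sum hcn (R := R) Finset.univ (fun l _ => pnu l)).add hcn
      (pN.smul hcn (-1))).add hcn
      ((Pc.sum hcn (R := R) Φ (fun φ _ => pabs φ)).smul hcn (-((k : ℝ) * w)))).add hcn
      (pbad.smul hcn (-((k : ℝ) * w + k ^ 2)))
    have hcntW := (hcn N c).2.2.1 _ (fun z => ((c.ord z W).untop₀ : ℤ)) pG.1
      ((ho N c).2.2.2.2.2.1 W hW) (by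
        intro z hz
        have := ordd hr ho hw r Φ w k e he lm nu hc hW hU Nv hNv z (ext_of_le hz)
        refine le_trans (le_of_eq ?_) this
        ring) R
    rw [pG.2] at hcntW
    -- Jensen
    have jW := hCW R hR2
    have hL : 0 ≤ 1 + Real.log R := by linarith
    have up : ∀ {x C : ℝ}, x ≤ C * (1 + Real.log R) → x ≤ |C| * (1 + Real.log R) := fun {x C} h =>
      h.trans (mul_le_mul_of_nonneg_right (le_abs_self _) hL)
    have jW' := abs_le.mp (up jW)
    have hlC0 : Real.log C0 ≤ |Real.log C0| * (1 + Real.log R) := by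
      have := le_abs_self (Real.log C0)
      have := abs_nonneg (Real.log C0)
      nlinarith
    have hht : ∀ m', c.ht m' R = Real.circleAverage (fun z => |c.lam z m'|) 0 R +
        c.cnt (fun z => (|c.del z m'| : ℤ)) R := fun m' => rfl
    simp only [hht, Finset.sum_add_distrib, Finset.sum_sub_distrib]
    have hCexp : C' * (1 + Real.log R) = |Real.log C0| * (1 + Real.log R) +
        |CW| * (1 + Real.log R) := by
      rw [hC']; ring
    have h11 := jW'.1
    rw [hCexp]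
    rw [← hR] at h1
    linarith
  -- passage to the limit
  intro δ hδ
  set A : ℝ := (k * w + k ^ 2) + 2 * C' + 1 with hA
  have hA0 : 0 < A := by positivity
  have hδ' : 0 < δ / A := by positivity
  have hlim := (Real.tendsto_log_atTop.comp r.lim).eventually_ge_atTop 1
  filter_upwards [r.small (δ / A) hδ', hlim] with n h1 h2
  have h3 := key n
  simp only [Function.comp] at h2
  have h4 : (k * w + k ^ 2) * Real.log (1 / r.e n) + C' * (1 + Real.log (r.s n)) ≤
      δ * c.ch (r.s n) := by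
    have h5 : 1 + Real.log (r.s n) ≤ 2 * (δ / A * c.ch (r.s n)) := by linarith [h1.1]
    have h6 : 0 ≤ δ / A * c.ch (r.s n) := by linarith [h1.1]
    have h7 : (k * w + k ^ 2) * Real.log (1 / r.e n) ≤
        (k * w + k ^ 2) * (δ / A * c.ch (r.s n)) :=
      mul_le_mul_of_nonneg_left h1.2 (by positivity)
    have h8 : C' * (1 + Real.log (r.s n)) ≤ C' * (2 * (δ / A * c.ch (r.s n))) :=
      mul_le_mul_of_nonneg_left h5 (by positivity)
    have h9 : A * (δ / A * c.ch (r.s n)) = δ * c.ch (r.s n) := by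
      field_simp
    rw [← h9, hA]
    nlinarith
  linarith

end Pool.Agent.Y458.OG
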