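import Pool.Agent.Y192.OG.StF
import Pool.Agent.Y852.OG.Ring

/-!
The ring of functions attached to a curve is integrally closed.
-/

set_option autoImplicit false

namespace Pool.Agent.Y458.OG

open Filter Topology Set Pool.Agent.W603.BP Pool.Agent.Y192.OG

variable {N : ℕ} (c : Curve N)

theorem ord_one' {z : ℂ} (hz : z ∈ Ext c.r0) : c.ord z 1 = 0 := by
  have h := ((Pool.Agent.Y852.OG.t_ord N c).1 z hz).2.2.2.2.2 0
  rw [c.mon_zero] at h
  rw [h]
  unfold Curve.del
  simp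

theorem ord_zero' (z : ℂ) : c.ord z 0 = ⊤ := by
  unfold Curve.ord
  have h : c.val 0 = fun _ => 0 := by
    funext w
    unfold Curve.val
    by_cases hw : w ∈ c.U
    · rw [c.ext_of_mem _ hw]; rfl
    · rw [c.ext_of_notMem _ hw]
  rw [h, meromorphicOrderAt_eq_top_iff]
  exact Filter.Eventually.of_forall fun _ => rfl

theorem ord_pow' {z : ℂ} (hz : z ∈ Ext c.r0) (f : c.Mr) (a : ℤ) (hf : c.ord z f = (a : WithTop ℤ))
    (n : ℕ) : c.ord z (f ^ n) = ((n * a : ℤ) : WithTop ℤ) := by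
  induction n with
  | zero => rw [pow_zero, ord_one' c hz]; simp
  | succ n ih =>
    rw [pow_succ, ((Pool.Agent.Y852.OG.t_ord N c).1 z hz).1, ih, hf, ← WithTop.coe_add]
    congr 1
    push_cast
    ring

theorem ord_sum' {z : ℂ} (hz : z ∈ Ext c.r0) {ι : Type} (s : Finset ι) (F : ι → c.Mr) (k : ℤ)
    (h : ∀ i ∈ s, (k : WithTop ℤ) ≤ c.ord z (F i)) : (k : WithTop ℤ) ≤ c.ord z (∑ i ∈ s, F i) := by
  classical
  induction s using Finset.induction_on with
  | empty => rw [Finset.sum_empty, ord_zero']; exact le_top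
  | insert a s ha ih =>
    rw [Finset.sum_insert ha]
    exact le_trans (le_min (h a (Finset.mem_insert_self a s))
      (ih fun i hi => h i (Finset.mem_insert_of_mem hi)))
      (((Pool.Agent.Y852.OG.t_ord N c).1 z hz).2.1 _ _)

/-- the order of the numerator of an integral element is at least the order of the denominator -/
theorem ord_le {z : ℂ} (hz : z ∈ c.U) (h g : c.Mr) (hg : g ≠ 0) (n : ℕ) (a : ℕ → c.Mr)
    (heq : h ^ n + ∑ i ∈ Finset.range n, a i * g ^ (n - i) * h ^ i = 0) :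
    c.ord z g ≤ c.ord z h := by
  have hz' : z ∈ Ext c.r0 := hz.1
  obtain ⟨hmul, hadd, hsm, hnn, -, -⟩ := (Pool.Agent.Y852.OG.t_ord N c).1 z hz'
  have hgt := (Pool.Agent.Y852.OG.t_ring N c).2.2.2 g hg z hz'
  by_contra hlt
  rw [not_le] at hlt
  have hht : c.ord z h ≠ ⊤ := ne_top_of_lt hlt
  obtain ⟨β, hβ⟩ := WithTop.ne_top_iff_exists.mp hgt
  obtain ⟨α, hα⟩ := WithTop.ne_top_iff_exists.mp hht
  rw [← hα, ← hβ, WithTop.coe_lt_coe] at hlt
  have h1 : ∀ i ∈ Finset.range n,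
      ((n * α + 1 : ℤ) : WithTop ℤ) ≤ c.ord z (a i * g ^ (n - i) * h ^ i) := by
    intro i hi
    have hi' : i < n := Finset.mem_range.mp hi
    rw [hmul, hmul, ord_pow' c hz' g β hβ.symm, ord_pow' c hz' h α hα.symm, add_assoc,
      ← WithTop.coe_add]
    have h2 : ((n * α + 1 : ℤ) : WithTop ℤ) ≤
        0 + ((((n - i : ℕ) : ℤ) * β + (i : ℤ) * α : ℤ) : WithTop ℤ) := by
      rw [zero_add, WithTop.coe_le_coe]
      have h3 : ((n - i : ℕ) : ℤ) = n - i := by
        push_cast [Nat.cast_sub hi'.le]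
        ring
      rw [h3]
      have h4 : (1 : ℤ) ≤ (n : ℤ) - i := by
        have : (i : ℤ) + 1 ≤ n := by exact_mod_cast hi'
        linarith
      nlinarith
    exact h2.trans (add_le_add_left (hnn hz (a i)) _)
  have h5 := ord_sum' c hz' (Finset.range n) _ _ h1
  have h6 : h ^ n = (-1 : ℂ) • ∑ i ∈ Finset.range n, a i * g ^ (n - i) * h ^ i := by
    rw [neg_one_smul]
    exact eq_neg_of_add_eq_zero_left heq
  have h7 := h5.trans (hsm (-1) _)
  rw [← h6, ord_pow' c hz' h α hα.symm, WithTop.coe_le_coe] at h7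
  linarith

/-- quotients of elements of the ring without poles on `U` -/
theorem exists_quot (h g : c.Mr) (hg : g ≠ 0) (hle : ∀ z ∈ c.U, c.ord z g ≤ c.ord z h) :
    ∃ q : c.Mr, q * g = h := by
  set φ : ℂ → ℂ := c.val h / c.val g with hφ
  have hφm : MeromorphicOn φ (Ext c.r0) := (c.val_mero h).div (c.val_mero g)
  set ψ := toMeromorphicNFOn φ (Ext c.r0) with hψ
  have hNF : MeromorphicNFOn ψ (Ext c.r0) := meromorphicNFOn_toMeromorphicNFOn φ (Ext c.r0)
  have hψm : MeromorphicOn ψ (Ext c.r0) := hNF.meromorphicOn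
  have hev : ∀ z ∈ Ext c.r0, ψ =ᶠ[𝓝[≠] z] φ := fun z hz =>
    hφm.toMeromorphicNFOn_eq_self_on_nhdsNE hz
  have hgz : ∀ z ∈ Ext c.r0, ∀ᶠ w in 𝓝[≠] z, c.val g w ≠ 0 := fun z hz =>
    (meromorphicOrderAt_ne_top_iff_eventually_ne_zero (c.val_mero g z hz)).1
      ((Pool.Agent.Y852.OG.t_ring N c).2.2.2 g hg z hz)
  have hprod : ∀ z ∈ Ext c.r0, ψ * c.val g =ᶠ[𝓝[≠] z] c.val h := by
    intro z hz
    filter_upwards [hev z hz, hgz z hz] with w h1 h2
    rw [Pi.mul_apply, h1, hφ, Pi.div_apply]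
    field_simp
  have hψa : AnalyticOnNhd ℂ ψ c.U := by
    intro z hz
    refine (hNF hz.1).meromorphicOrderAt_nonneg_iff_analyticAt.mp ?_
    have h1 := meromorphicOrderAt_congr (hprod z hz.1)
    rw [meromorphicOrderAt_mul (hψm z hz.1) (c.val_mero g z hz.1)] at h1
    have h2 := hle z hz
    unfold Curve.ord at h2
    rw [← h1] at h2
    have hgt := (Pool.Agent.Y852.OG.t_ring N c).2.2.2 g hg z hz.1
    unfold Curve.ord at hgt
    obtain ⟨β, hβ⟩ := WithTop.ne_top_iff_exists.mp hgt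
    rw [← hβ] at h2
    by_cases ht : meromorphicOrderAt ψ z = ⊤
    · rw [ht]; exact le_top
    · obtain ⟨α, hα⟩ := WithTop.ne_top_iff_exists.mp ht
      rw [← hα, ← WithTop.coe_add, WithTop.coe_le_coe] at h2
      rw [← hα]
      exact_mod_cast (by linarith : (0 : ℤ) ≤ α)
  refine ⟨c.mr ψ hψm hψa, c.val_inj fun z hz => ?_⟩
  rw [c.val_mul, Pi.mul_apply, c.val_mr _ _ _ hz]
  have h1 : AnalyticAt ℂ (ψ * c.val g) z := (hψa z hz).mul (c.val_an g z hz)
  have h2 : ψ * c.val g =ᶠ[𝓝 z] c.val h :=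
    (h1.frequently_eq_iff_eventually_eq (c.val_an h z hz)).mp (hprod z hz.1).frequently
  exact h2.self_of_nhds

theorem t_icl : St_icl := by
  intro N c _ y hy
  obtain ⟨P, hP, hy⟩ := hy
  obtain ⟨h, g, hgy⟩ := IsLocalization.exists_mk'_eq (nonZeroDivisors c.Mr) y
  have hg : (g : c.Mr) ≠ 0 := nonZeroDivisors.ne_zero g.2
  have h1 : Polynomial.aeval (IsLocalization.mk' (FractionRing c.Mr) h g) P = 0 := by
    rw [hgy]; exact hy
  have h2 := scaleRoots_aeval_eq_zero_of_aeval_mk'_eq_zero h1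
  rw [Polynomial.aeval_algebraMap_apply, ← map_zero (algebraMap c.Mr (FractionRing c.Mr))] at h2
  have h3 := IsFractionRing.injective c.Mr (FractionRing c.Mr) h2
  rw [Polynomial.coe_aeval_eq_eval, Polynomial.eval_eq_sum_range, Polynomial.natDegree_scaleRoots,
    Finset.sum_range_succ] at h3
  simp only [Polynomial.coeff_scaleRoots] at h3
  rw [Polynomial.Monic.coeff_natDegree hP, Nat.sub_self, pow_zero, one_mul, one_mul] at h3
  obtain ⟨q, hq⟩ := exists_quot c h g hg fun z hz =>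
    ord_le c hz h g hg P.natDegree (fun i => P.coeff i) (by rw [add_comm]; exact h3)
  refine ⟨q, ?_⟩
  rw [← hgy, IsLocalization.eq_mk'_iff_mul_eq, ← map_mul, hq]

end Pool.Agent.Y458.OG
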